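import Mathlib
import Pool.Agent.R582.NR.Wide

/-!
# MP_6e75db_lc, Q1: a tree specialisable without reals which embeds into no `ω₁`-tree
-/

namespace Pool.Agent.Results.MP_6e75db_lc.SpecialNotEmbeddable

open Cardinal Set
open Pool.Agent.R582.NR Pool.Agent.R582.Wide

/-- In ZFC there is a normal `(ω₁, ≤ ℵ₁)`-Aronszajn tree, all of whose chains are countable, which
is special (so it can be specialised without adding reals), and which does not embed into any
tree of height `ω₁` with countable levels (normal or not). -/
theorem result : ∃ (S : Type) (r : S → S → Prop),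
    IsAronszajn (ℵ_ 1) r ∧ IsNormal r ∧
    (∀ C : Set S, (∀ s ∈ C, ∀ t ∈ C, s = t ∨ r s t ∨ r t s) → C.Countable) ∧
    Special r ∧ SpecNoReals r ∧
    ∀ (T : Type) (r' : T → T → Prop), IsOmegaOneTree r' → IsEmpty (r ↪r r') :=
  ⟨Node, rel, isAronszajn, isNormal, fun _ h => chain_countable h, special, special_spec special,
    fun _ _ h => not_embed h⟩

end Pool.Agent.Results.MP_6e75db_lc.SpecialNotEmbeddable
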